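import Pool.Agent.J4.H83.Coset2

/-!
# The log-rank conjecture when every column has a small parity certificate structure of its own

`F : X × Y → {0,1}`, `X` a finite abelian group (for instance `F_2^n`), `Y` any finite set. Only the
single columns `F(., y)` are assumed to be simple, and nothing is assumed about the relation between
different columns or about the rows.

(1) If every column is a combination of at most `2^t` characters, and every entry with value `v`
lies on a coset of a subgroup of index at most `2^d` on which its column is constant, then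
`D(F) ≤ 150 (d (t + log r + 1) + 1) (log r + 1)^2`.
(2) If in every column the entries with value `v` form a disjoint union of at most `2^d` cosets of
subgroups of index at most `2^d`, then `D(F) ≤ 150 (d (2 d + log r + 2) + 1) (log r + 1)^2`.
(3) In particular this holds if every column has a coset decision tree of depth `d` (for
`X = F_2^n`: a parity decision tree).

The difficulty is that Bob knows the subgroup but cannot describe it to Alice, since `X` may be very
large. The proof: all columns together use at most `r 2^t` characters. If the column `f` is constant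
on `x + W` then the characters of `f` which agree on `W` cancel each other in the classes different
from the trivial one, and so `f` is constant on `x + K`, where `K ⊇ W` is the subgroup on which all
pairs of characters of the support that agree on `W` agree. `K` is determined by `d` pairs of
characters of the support, so the entries with value `v` have a cover by few rectangles, and the
theorem of Lovász and Saks applies.
-/

set_option autoImplicit false

namespace Pool.Agent.Results.MP_e5d384_lc.CosetColumns

/-- `F` has a deterministic two-party protocol with exactly `c` bits. (Protocols exactly as in the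
frozen statement S15531: `t` is the transcript so far, `owner t` says who speaks, and the answer is
a function of the transcript.) -/
def HasProtocol {X Y : Type} (F : X → Y → Bool) (c : ℕ) : Prop :=
  ∃ (owner : List Bool → Bool) (a : List Bool → X → Bool)
      (b : List Bool → Y → Bool) (out : List Bool → Bool),
      ∀ x y, out (Nat.iterate
        (fun t : List Bool => t ++ [if owner t then a t x else b t y]) c []) = F x y

/-- `log₂` of the real rank of the communication matrix of `F` (`0` if the rank is `0`) -/
noncomputable def logRank {X Y : Type} [Fintype X] [Fintype Y] (F : X → Y → Bool) : ℝ :=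
  Real.logb 2 ((Matrix.of (fun (x : X) (y : Y) => if F x y then (1 : ℝ) else 0)).rank : ℝ)

/-- `f : X → {0,1}` is a combination of at most `m` characters. -/
def Sparse {X : Type} [AddCommGroup X] (f : X → Bool) (m : ℕ) : Prop :=
  ∃ (S : Finset (AddChar X ℂ)) (b : AddChar X ℂ → ℂ), S.card ≤ m ∧
    ∀ x, (if f x then (1 : ℂ) else 0) = ∑ χ ∈ S, b χ * χ x

open Classical in
/-- The set of the `x` with `f(x) = v` is the disjoint union of at most `2 ^ d` cosets of subgroups
of index at most `2 ^ d` (a point with `f(x) = v` lies in exactly one of the cosets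
`{x | x - p i ∈ W i}`, the other points in none). -/
def CosetUnion {X : Type} [AddCommGroup X] (f : X → Bool) (v : Bool) (d : ℕ) : Prop :=
  ∃ (I : Type) (_ : Fintype I) (W : I → AddSubgroup X) (p : I → X),
    Fintype.card I ≤ 2 ^ d ∧ (∀ i, (W i).index ≤ 2 ^ d) ∧
    ∀ x, (Finset.univ.filter (fun i => x - p i ∈ W i)).card = if f x = v then 1 else 0

/-- `f` has a coset decision tree of depth at most `d`: at a node one learns the coset of `x` modulo
a subgroup of index at most `2 ^ k`, at the cost `k`. (For `X = F_2^n` and `k = 1`: the value of a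
linear form.) -/
inductive CosetTree {X : Type} [AddCommGroup X] : (X → Bool) → ℕ → Prop
  | leaf (v : Bool) (d : ℕ) : CosetTree (fun _ => v) d
  | node (U : AddSubgroup X) (k d : ℕ) (hU : U.index ≤ 2 ^ k) (f : X → Bool) (g : X → X → Bool)
      (hg : ∀ p, CosetTree (g p) d) (hf : ∀ p x, x - p ∈ U → f x = g p x) : CosetTree f (d + k)

theorem tree_union {X : Type} [AddCommGroup X] [Fintype X] (v : Bool) {f : X → Bool} {d : ℕ}
    (h : CosetTree f d) : CosetUnion f v d := by
  classical
  induction h with
  | leaf u d =>
    by_cases hu : u = v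
    · refine ⟨Unit, inferInstance, fun _ => ⊤, fun _ => 0, ?_, fun _ => ?_, fun x => ?_⟩
      · rw [Fintype.card_unit]
        exact Nat.one_le_pow _ _ (by norm_num)
      · rw [AddSubgroup.index_top]
        exact Nat.one_le_pow _ _ (by norm_num)
      · simp [hu]
    · refine ⟨Empty, inferInstance, fun i => i.elim, fun i => i.elim, ?_, fun i => i.elim,
        fun x => ?_⟩
      · simp
      · simp [hu]
  | node U k d hU f g _ hf ih =>
    choose I hIf W p hI hW hx using ih
    have : Fintype (X ⧸ U) := Fintype.ofFinite _
    let ρ : X ⧸ U → X := Quotient.out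
    have hρ : ∀ x : X, x - ρ (x : X ⧸ U) ∈ U := by
      intro x
      have h4 : ((Quotient.out (x : X ⧸ U) : X) : X ⧸ U) = (x : X ⧸ U) := Quotient.out_eq _
      have := QuotientAddGroup.eq.mp h4
      rwa [neg_add_eq_sub] at this
    have hcoset : ∀ (x : X) (q : X ⧸ U), x - ρ q ∈ U → (x : X ⧸ U) = q := by
      intro x q hq
      have h4 : ((Quotient.out q : X) : X ⧸ U) = q := Quotient.out_eq _
      rw [← h4]
      symm
      rw [QuotientAddGroup.eq, neg_add_eq_sub]
      exact hq
    let J : Type := Σ q : X ⧸ U, {i : I (ρ q) // ∃ z, z - p (ρ q) i ∈ W (ρ q) i ∧ z - ρ q ∈ U}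
    have hz : ∀ j : J, ∃ z, z - p (ρ j.1) j.2.1 ∈ W (ρ j.1) j.2.1 ∧ z - ρ j.1 ∈ U := fun j => j.2.2
    choose z hz1 hz2 using hz
    refine ⟨J, inferInstance, fun j => W (ρ j.1) j.2.1 ⊓ U, z, ?_, fun j => ?_, fun x => ?_⟩
    · rw [Fintype.card_sigma]
      calc ∑ q : X ⧸ U, Fintype.card
            {i : I (ρ q) // ∃ z, z - p (ρ q) i ∈ W (ρ q) i ∧ z - ρ q ∈ U}
          ≤ ∑ q : X ⧸ U, 2 ^ d := Finset.sum_le_sum fun q _ =>
            (Fintype.card_subtype_le _).trans (hI _)
        _ = Fintype.card (X ⧸ U) * 2 ^ d := by
            rw [Finset.sum_const, Finset.card_univ, smul_eq_mul]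
        _ ≤ 2 ^ k * 2 ^ d := by
            refine Nat.mul_le_mul_right _ ?_
            rw [← Nat.card_eq_fintype_card]
            exact hU
        _ = 2 ^ (d + k) := by rw [pow_add, mul_comm]
    · refine AddSubgroup.index_inf_le.trans ?_
      rw [pow_add]
      exact Nat.mul_le_mul (hW _ _) hU
    · set q₀ : X ⧸ U := (x : X ⧸ U) with hq₀
      have hfx : f x = g (ρ q₀) x := hf _ _ (hρ x)
      rw [hfx, ← hx (ρ q₀) x]
      symm
      refine Finset.card_bij (fun i hi => (⟨q₀, ⟨i, x, (Finset.mem_filter.mp hi).2, hρ x⟩⟩ : J))
        ?_ ?_ ?_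
      · intro i hi
        rw [Finset.mem_filter]
        refine ⟨Finset.mem_univ _, ?_⟩
        set j : J := ⟨q₀, ⟨i, x, (Finset.mem_filter.mp hi).2, hρ x⟩⟩ with hj
        have h1 : x - p (ρ q₀) i ∈ W (ρ q₀) i := (Finset.mem_filter.mp hi).2
        have h2 : z j - p (ρ q₀) i ∈ W (ρ q₀) i := hz1 j
        have h3 : z j - ρ q₀ ∈ U := hz2 j
        refine ⟨?_, ?_⟩
        · have := (W (ρ q₀) i).sub_mem h1 h2
          have e : x - p (ρ q₀) i - (z j - p (ρ q₀) i) = x - z j := by abel
          rwa [e] at this
        · have := U.sub_mem (hρ x) h3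
          have e : x - ρ (x : X ⧸ U) - (z j - ρ q₀) = x - z j := by
            rw [← hq₀]
            abel
          rwa [e] at this
      · intro i hi i' hi' heq
        have h1 := eq_of_heq (Sigma.mk.inj heq).2
        exact congrArg Subtype.val h1
      · rintro ⟨q, ⟨i, hi⟩⟩ hj
        rw [Finset.mem_filter] at hj
        have h1 := hj.2.1
        have h2 := hj.2.2
        have h3 := hz1 ⟨q, ⟨i, hi⟩⟩
        have h4 := hz2 ⟨q, ⟨i, hi⟩⟩
        have hq : q = q₀ := by
          symm
          refine hcoset x q ?_
          have := U.add_mem h2 h4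
          have e : x - z ⟨q, ⟨i, hi⟩⟩ + (z ⟨q, ⟨i, hi⟩⟩ - ρ q) = x - ρ q := by abel
          exact e ▸ this
        subst hq
        refine ⟨i, ?_, rfl⟩
        rw [Finset.mem_filter]
        refine ⟨Finset.mem_univ _, ?_⟩
        have := (W (ρ q₀) i).add_mem h1 h3
        have e : x - z ⟨q₀, ⟨i, hi⟩⟩ + (z ⟨q₀, ⟨i, hi⟩⟩ - p (ρ q₀) i) = x - p (ρ q₀) i := by abel
        exact e ▸ this

/-- **The log-rank conjecture for functions with simple columns on abelian groups.** Let `X` be a
finite abelian group, `Y` a finite set, `F : X × Y → {0,1}` and `v ∈ {0,1}`.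
(1) If every column is a combination of at most `2 ^ t` characters and every `(x, y)` with
`F(x, y) = v` has a subgroup `W` of index at most `2 ^ d` with `F = v` on `(x + W, y)`, then `F` has a
protocol with at most `150 (d (t + log₂ rank F + 1) + 1) (log₂ rank F + 1) ^ 2` bits.
(2) If in every column the entries with value `v` form a disjoint union of at most `2 ^ d` cosets of
subgroups of index at most `2 ^ d`, then `F` has a protocol with at most
`150 (d (2 d + log₂ rank F + 2) + 1) (log₂ rank F + 1) ^ 2` bits.
(3) The same if every column has a coset decision tree of depth at most `d`. -/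
theorem result (X Y : Type) [AddCommGroup X] [Fintype X] [Fintype Y] (F : X → Y → Bool) (v : Bool)
    (t d : ℕ) :
    ((∀ y, Sparse (fun x => F x y) (2 ^ t)) →
      (∀ x y, F x y = v → ∃ W : AddSubgroup X, W.index ≤ 2 ^ d ∧ ∀ w ∈ W, F (x + w) y = v) →
      ∃ c : ℕ, HasProtocol F c ∧
        (c : ℝ) ≤ 150 * (d * (t + logRank F + 1) + 1) * (logRank F + 1) ^ 2) ∧
    ((∀ y, CosetUnion (fun x => F x y) v d) →
      ∃ c : ℕ, HasProtocol F c ∧
        (c : ℝ) ≤ 150 * (d * (2 * d + logRank F + 2) + 1) * (logRank F + 1) ^ 2) ∧
    ((∀ y, CosetTree (fun x => F x y) d) →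
      ∃ c : ℕ, HasProtocol F c ∧
        (c : ℝ) ≤ 150 * (d * (2 * d + logRank F + 2) + 1) * (logRank F + 1) ^ 2) :=
  ⟨fun h1 h2 => Pool.Agent.J4.H83.coset_proto F v t d h1 h2,
    fun h => Pool.Agent.J4.H83.union_proto F v d h,
    fun h => Pool.Agent.J4.H83.union_proto F v d fun y => tree_union v (h y)⟩

end Pool.Agent.Results.MP_e5d384_lc.CosetColumns
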