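import Pool.Agent.J4.H10.LR.Fin
import Pool.Agent.J4.H10.LR.Bound
import Pool.Agent.H630R2.LR.Bounds
import Pool.Agent.Helper711_SMP.R2

/-!
# The log-rank conjecture for randomized, post-selected and nondeterministic protocols with oracles
# which are easy for product distributions

A Boolean matrix `A` is called easy (with the parameter `d`) if for the uniform distribution on every
rectangle it has a deterministic protocol with `d (e + 1)` bits and error `2 ^ (-e)`, for all `e`.
This holds for all matrices of small VC dimension (of the rows or of the columns), in particular of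
small sign-rank, and for all matrices with short deterministic protocols. (It is known that some
matrices of bounded sign-rank have no short randomized protocols.)

We consider decision trees with at most `c` queries to the entries `A(x,y)` of arbitrary easy
matrices and show that a function `F` of small real rank `r` has a short deterministic protocol
* if a random tree gives the correct answer with probability at least `2 ^ (-k)` and is
  `1 + 1 / g` times more likely to be right than wrong (protocols with postselection; this contains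
  the bounded-error, the Merlin-Arthur and the small-bounded-error classes);
* more generally, if this is true on the parts of a list of `2 ^ k` rectangles, each input belonging
  to its first rectangle (this contains the protocols with access to `NP` oracles);
* if for every distribution of the inputs some tree is right with probability `1 / 2 + 1 / (2 g)`.
In the last case the number of bits is linear in `g`, as well as in the first one if the random tree
is one-sided (for example, if the ones of `F` are a union of `2 ^ (k - 1)` easy matrices, `g = 1`). For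
rectangles instead of trees the third item is Lovett's bound by the inverse of the discrepancy; for
ordinary protocols the first one is close to results of Gavinsky and Lovett.

Conversely a function with a short protocol is itself easy. So the log-rank conjecture is equivalent
to the statement that every Boolean matrix can be predicted, for every distribution of the inputs, with
the advantage `1 / polylog r` by a matrix which is easy for uniform distributions on rectangles with a
parameter at most `polylog r`.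

The proof. A protocol with few errors on a rectangle `S` is a partition of `S` into few rectangles
on which the oracle is nearly constant, and these partitions can be composed along a tree. Let first
`P = ∑ w_i [π_i = v]` be at least `1 + 1 / g` on `F = v` and at most `1` elsewhere. If the part of
`S` where `F = v` has density at most `1 / (4 (r + 1))`, then a quarter of `S` is free of it, by
linear algebra. Otherwise, averaging over `i` and the pieces of the partition of `S` (with an error
far below `2 ^ (-k) / (g r ^ 2)`), one finds a piece, of relative size `2 ^ (- O(c d (k + log g + log c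
+ log r)))`, on which the ratio of the numbers of the entries `F ≠ v` and `F = v` is smaller by the
factor `1 - 1 / (4 g)`. After `O(g log r)` such steps the ratio is at most `1 / (4 (r + 1))` and a
quarter of the piece is monochromatic. So all rectangles contain large monochromatic rectangles and
the argument of Nisan and Wigderson applies. In the two-sided case one uses the `O(g log r)`-th powers
of both combinations; the value `v` for which the correct part of the power is larger on `S` gives a
piece with few errors. For a list of rectangles one first removes the rows (columns) of all rectangles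
of the list which have few rows (columns) in `S`, until a rectangle of the list has many rows and
columns. The third item is reduced to the first one by the minimax theorem.
-/

set_option autoImplicit false

namespace Pool.Agent.Results.MP_e5d384_lc.ProductEasyOracles

open Finset Pool.Agent.J4.H10.LR

/-- `F` has a deterministic two-party protocol with exactly `c` bits. (Protocols exactly as in the
frozen statement S15531: `t` is the transcript so far, `owner t` says who speaks, and the answer is
a function of the transcript.) -/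
def HasProtocol {X Y : Type} (F : X → Y → Bool) (c : ℕ) : Prop :=
  ∃ (owner : List Bool → Bool) (a : List Bool → X → Bool)
      (b : List Bool → Y → Bool) (out : List Bool → Bool),
      ∀ x y, out (Nat.iterate
        (fun t : List Bool => t ++ [if owner t then a t x else b t y]) c []) = F x y

/-- `log₂` of the real rank of the communication matrix of `F` (`0` if the rank is `0`) -/
noncomputable def logRank {X Y : Type} [Fintype X] [Fintype Y] (F : X → Y → Bool) : ℝ :=
  Real.logb 2 ((Matrix.of (fun (x : X) (y : Y) => if F x y then (1 : ℝ) else 0)).rank : ℝ)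

/-- The matrix `A` is easy for the uniform distributions on rectangles: for all sets `S` of rows and
`T` of columns and every `e` there is a protocol with `d (e + 1)` bits the answer of which is wrong
on at most `|S| |T| / 2 ^ e` entries of `S × T`. -/
def Easy {X Y : Type} (A : X → Y → Bool) (d : ℕ) : Prop :=
  ∀ (S : Finset X) (T : Finset Y) (e : ℕ), ∃ G : X → Y → Bool, HasProtocol G (d * (e + 1)) ∧
    2 ^ e * ((S ×ˢ T).filter (fun p => A p.1 p.2 ≠ G p.1 p.2)).card ≤ S.card * T.card

/-- The columns of the matrix `A`, as functions of the rows, have VC dimension at most `d`: if all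
`2 ^ k` patterns occur in some `k` rows, then `k ≤ d`. -/
def VC {X Y : Type} (A : X → Y → Bool) (d : ℕ) : Prop :=
  ∀ (k : ℕ) (x : Fin k → X), (∀ S : Fin k → Bool, ∃ y, ∀ i, A (x i) y = S i) → k ≤ d

/-- Decision trees which query entries `A(x,y)` of arbitrary Boolean matrices (oracles) and answer
`some 0`, `some 1` or `none` (no answer). -/
inductive OTree (X Y : Type) : Type
  | answer (o : Option Bool) : OTree X Y
  | ask (A : X → Y → Bool) (yes no : OTree X Y) : OTree X Y

namespace OTree

variable {X Y : Type}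

/-- the answer of the tree -/
def run : OTree X Y → X → Y → Option Bool
  | answer o, _, _ => o
  | ask A yes no, x, y => if A x y = true then yes.run x y else no.run x y

/-- the largest number of queries -/
def depth : OTree X Y → ℕ
  | answer _ => 0
  | ask _ yes no => max yes.depth no.depth + 1

/-- All matrices which are queried are easy with the parameter `d`. -/
def AllEasy (d : ℕ) : OTree X Y → Prop
  | answer _ => True
  | ask A yes no => Easy A d ∧ yes.AllEasy d ∧ no.AllEasy d

end OTree

/-- The probability that the tree `π i` answers `v`, for `i` chosen with probability `w i` (the sum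
of the `w i` is at most `1`; with the remaining probability there is no answer). -/
noncomputable def prob {X Y I : Type} [Fintype I] (π : I → OTree X Y) (w : I → ℝ) (v : Bool)
    (x : X) (y : Y) : ℝ := ∑ i, if (π i).run x y = some v then w i else 0

/-- A randomized protocol: finitely many trees with at most `c` queries to oracles of VC dimension
at most `d`, with probabilities `w`. -/
def Randomized {X Y I : Type} [Fintype I] (π : I → OTree X Y) (w : I → ℝ) (c d : ℕ) : Prop :=
  (∀ i, 0 ≤ w i) ∧ ∑ i, w i ≤ 1 ∧ ∀ i, (π i).depth ≤ c ∧ (π i).AllEasy d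

/-- Some randomized protocol answers, for all inputs in `D`, with probability at least `2 ^ (-k)`
correctly, and `1 + 1 / g` times more likely correctly than wrongly. -/
def PostOn {X Y : Type} (F : X → Y → Bool) (k g c d : ℕ) (D : X → Y → Prop) : Prop :=
  ∃ (I : Type) (_ : Fintype I) (π : I → OTree X Y) (w : I → ℝ), Randomized π w c d ∧
    ∀ x y, D x y → 1 / 2 ^ k ≤ prob π w (F x y) x y ∧
      (1 + 1 / (g : ℝ)) * prob π w (!F x y) x y ≤ prob π w (F x y) x y

/-- There is a list of at most `2 ^ k` rectangles which cover all inputs, and for each of them a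
randomized protocol as in `PostOn` for the inputs whose first rectangle it is. -/
def ListProtocol {X Y : Type} (F : X → Y → Bool) (k g c d : ℕ) : Prop :=
  ∃ (m : ℕ) (U : ℕ → X → Prop) (V : ℕ → Y → Prop), m ≤ 2 ^ k ∧ (∀ x y, ∃ j < m, U j x ∧ V j y) ∧
    ∀ j < m, PostOn F k g c d (fun x y => U j x ∧ V j y ∧ ∀ i < j, ¬ (U i x ∧ V i y))

/-- Some randomized protocol answers `v` with probability at least `(1 + 1 / g) 2 ^ (-k)` if `F = v`,
and with probability at most `2 ^ (-k)` otherwise. -/
def OneSided {X Y : Type} (F : X → Y → Bool) (v : Bool) (k g c d : ℕ) : Prop :=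
  ∃ (I : Type) (_ : Fintype I) (π : I → OTree X Y) (w : I → ℝ), Randomized π w c d ∧
    (∀ x y, F x y = v → (1 + 1 / (g : ℝ)) / 2 ^ k ≤ prob π w v x y) ∧
    (∀ x y, F x y ≠ v → prob π w v x y ≤ 1 / 2 ^ k)

/-- For every probability distribution of the inputs some tree with at most `c` queries to oracles
of VC dimension at most `d` is right with probability at least `1 / 2 + 1 / (2 g)`. -/
def WeaklyPredictable {X Y : Type} [Fintype X] [Fintype Y] (F : X → Y → Bool) (g c d : ℕ) : Prop :=
  ∀ μ : X → Y → ℝ, (∀ x y, 0 ≤ μ x y) → ∑ x, ∑ y, μ x y = 1 →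
    ∃ π : OTree X Y, π.depth ≤ c ∧ π.AllEasy d ∧
      1 / 2 + 1 / (2 * (g : ℝ)) ≤ ∑ x, ∑ y, if π.run x y = some (F x y) then μ x y else 0

/-- Q1, as in the frozen statement S15531. -/
def LogRank : Prop :=
    ∃ C k : ℕ, ∀ n : ℕ, ∀ F : (Fin n → ZMod 2) → (Fin n → ZMod 2) → Bool,
      ∃ c : ℕ, ∃ owner : List Bool → Bool,
        ∃ a : List Bool → (Fin n → ZMod 2) → Bool,
        ∃ b : List Bool → (Fin n → ZMod 2) → Bool,
        ∃ out : List Bool → Bool,
          (∀ x y : Fin n → ZMod 2,
            out (Nat.iterate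
              (fun t : List Bool => t ++ [if owner t then a t x else b t y]) c []) = F x y) ∧
          (c : ℝ) ≤ (C : ℝ) * (Real.logb 2
              ((Matrix.of (fun x y : Fin n → ZMod 2 => if F x y then (1 : ℝ) else 0)).rank : ℝ)) ^ k
            + (C : ℝ)

theorem card_err {X Y : Type} (A G : X → Y → Bool) (S : Finset X) (T : Finset Y) :
    ((S ×ˢ T).filter (fun p => A p.1 p.2 ≠ G p.1 p.2)).card =
      ∑ y ∈ T, (S.filter (fun x => A x y ≠ G x y)).card := by
  simp only [card_filter]
  rw [sum_product_right]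

theorem nc_easy {X Y : Type} (A : X → Y → Bool) (d : ℕ) (h : Easy A d) (e : ℕ) :
    NC A (2 ^ (d * (e + 1))) (1 / 2 ^ e) := by
  classical
  refine nc_of_easy A (d * (e + 1)) _ fun S T => ?_
  obtain ⟨G, hG, herr⟩ := h S T e
  rw [card_err] at herr
  refine ⟨G, hG, ?_⟩
  have e1 : ∑ x ∈ S, ∑ y ∈ T, (if A x y = G x y then (0 : ℝ) else 1) =
      ((∑ y ∈ T, (S.filter (fun x => A x y ≠ G x y)).card : ℕ) : ℝ) := by
    rw [sum_comm]
    push_cast
    refine sum_congr rfl fun y _ => ?_
    rw [card_filter]
    push_cast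
    refine sum_congr rfl fun x _ => ?_
    by_cases h : A x y = G x y <;> simp [h]
  rw [e1, one_div, ← div_eq_inv_mul, le_div_iff₀ (by positivity)]
  have h2 : (2 : ℝ) ^ e * ((∑ y ∈ T, (S.filter (fun x => A x y ≠ G x y)).card : ℕ) : ℝ) ≤
      S.card * T.card := by exact_mod_cast herr
  linarith

theorem good_tree {X Y : Type} (d : ℕ) (v : Bool) (π : OTree X Y) (hL : π.AllEasy d) (c : ℕ)
    (hc : π.depth ≤ c) : Good d c (fun x y => decide (π.run x y = some v)) := by
  intro e
  set N := 2 ^ (d * (e + 1)) with hN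
  have hN1 : 1 ≤ N := Nat.one_le_two_pow
  have key : ∀ π : OTree X Y, π.AllEasy d →
      NC (fun x y => decide (π.run x y = some v)) (N ^ π.depth) (π.depth * (1 / 2 ^ e)) := by
    intro π
    induction π with
    | answer o =>
      intro _
      have h := nc_const (X := X) (Y := Y) (decide (o = some v))
      show NC (fun (_ : X) (_ : Y) => decide (o = some v)) (N ^ 0) (((0 : ℕ) : ℝ) * (1 / 2 ^ e))
      rw [pow_zero, Nat.cast_zero, zero_mul]
      exact h
    | ask A yes no ih1 ih2 =>
      rintro ⟨hA, h1, h2⟩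
      have hm : ∀ n : ℕ, n ≤ max yes.depth no.depth →
          N ^ n ≤ N ^ max yes.depth no.depth ∧ (n : ℝ) * (1 / 2 ^ e) ≤
            ((max yes.depth no.depth : ℕ) : ℝ) * (1 / 2 ^ e) := by
        intro n hn
        refine ⟨Nat.pow_le_pow_right hN1 hn, mul_le_mul_of_nonneg_right ?_ (by positivity)⟩
        exact_mod_cast hn
      have h3 := (nc_easy A d hA e).node
        ((ih1 h1).mono (hm _ (le_max_left _ _)).1 (hm _ (le_max_left _ _)).2)
        ((ih2 h2).mono (hm _ (le_max_right _ _)).1 (hm _ (le_max_right _ _)).2)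
      have e1 : (fun x y => decide ((OTree.ask A yes no).run x y = some v)) =
          (fun x y => if A x y = true then decide (yes.run x y = some v)
            else decide (no.run x y = some v)) := by
        funext x y
        simp only [OTree.run]
        split_ifs <;> rfl
      have e2 : N ^ (OTree.ask A yes no).depth = N * N ^ max yes.depth no.depth := by
        simp only [OTree.depth]
        rw [pow_succ']
      have e3 : ((OTree.ask A yes no).depth : ℝ) * (1 / 2 ^ e) =
          1 / 2 ^ e + ((max yes.depth no.depth : ℕ) : ℝ) * (1 / 2 ^ e) := by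
        simp only [OTree.depth]
        push_cast
        ring
      rw [e1, e2, e3]
      exact h3
  refine (key π hL).mono (Nat.pow_le_pow_right hN1 hc) (mul_le_mul_of_nonneg_right ?_
    (by positivity))
  exact_mod_cast hc

/-- Small VC dimension implies easiness. -/
theorem easy_of_vc {X Y : Type} (A : X → Y → Bool) (d : ℕ) (h : VC A d) :
    Easy A (2 * d * (Nat.clog 2 d + 2) + 3) := by
  intro S T e
  have h1 : 2 * d ≤ 2 ^ (1 + Nat.clog 2 d) := by
    rw [pow_add, pow_one]
    exact Nat.mul_le_mul_left _ (le_two_pow_clog d)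
  obtain ⟨G, hG, herr⟩ := easy_growth A d (Pool.Agent.R533.VC.growth_of_vc A d h) (2 ^ e)
    Nat.one_le_two_pow (e + 1) (1 + Nat.clog 2 d) (by rw [pow_succ']) h1 S T
  refine ⟨G, Pool.Agent.H630R2.LR.Proto.mono hG ?_, by rw [card_err]; exact herr⟩
  nlinarith [Nat.zero_le (d * e * Nat.clog 2 d), Nat.zero_le (d * e), Nat.zero_le e]

theorem Easy.swap {X Y : Type} {A : X → Y → Bool} {d : ℕ} (h : Easy (fun y x => A x y) d) :
    Easy A d := by
  classical
  intro S T e
  obtain ⟨G, hG, herr⟩ := h T S e
  rw [card_err (fun y x => A x y) G T S] at herr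
  refine ⟨fun x y => G y x, Pool.Agent.H630R2.LR.Proto.swap hG, ?_⟩
  rw [card_err A (fun x y => G y x) S T]
  have e1 : ∑ y ∈ T, (S.filter (fun x => A x y ≠ G y x)).card =
      ∑ x ∈ S, (T.filter (fun y => A x y ≠ G y x)).card := by
    simp only [card_filter]
    exact sum_comm
  rw [e1, mul_comm S.card]
  exact herr

theorem easy_of_protocol {X Y : Type} (A : X → Y → Bool) (d : ℕ) (h : HasProtocol A d) :
    Easy A d := by
  intro S T e
  refine ⟨A, Pool.Agent.H630R2.LR.Proto.mono h (Nat.le_mul_of_pos_right d (Nat.succ_pos e)), ?_⟩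
  simp

theorem prob_eq {X Y I : Type} [Fintype I] (π : I → OTree X Y) (w : I → ℝ) (v : Bool) (s : ℝ)
    (x : X) (y : Y) :
    cmb (fun i x y => decide ((π i).run x y = some v)) (fun i => s * w i) x y =
      s * prob π w v x y := by
  classical
  unfold cmb prob
  rw [mul_sum]
  refine sum_congr rfl fun i _ => ?_
  by_cases h : (π i).run x y = some v
  · simp [h]
  · simp [h]

theorem rank_zero {X Y : Type} [Fintype X] [Fintype Y] (F : X → Y → Bool)
    (hr0 : (Pool.Agent.H630R2.LR.comm F).rank = 0) : HasProtocol F 0 := by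
  obtain ⟨T, hT, hs⟩ := Pool.Agent.R533.VC.exists_rows (Pool.Agent.H630R2.LR.comm F)
  have hT0 : T = ∅ := Finset.card_eq_zero.mp (Nat.le_zero.mp (hT.trans hr0.le))
  refine Pool.Agent.H630R2.LR.Proto.const F false fun x y => ?_
  have h3 : (if F x y then (1 : ℝ) else 0) = 0 :=
    Pool.Agent.R533.VC.span_zero (Pool.Agent.H630R2.LR.comm F) T y
      (fun a ha => absurd ha (by rw [hT0]; simp)) _ (hs x)
  cases hF : F x y
  · rfl
  · rw [hF] at h3
    norm_num at h3

theorem lsum_nonneg (k g c r : ℕ) (hg : 1 ≤ g) (hc : 1 ≤ c) : 0 ≤ lsum k g c r := by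
  have h1 := logb_nat_nonneg g hg
  have h2 := logb_nat_nonneg c hc
  have h4 := Pool.Agent.H630R2.LR.logb_nonneg r
  unfold lsum
  positivity

/-- **Part 1.** -/
theorem part1 {X Y : Type} [Fintype X] [Fintype Y] (F : X → Y → Bool) (k g c d : ℕ)
    (hg : 1 ≤ g) (hc : 1 ≤ c) (hd : 1 ≤ d) (h : ListProtocol F k g c d) :
    ∃ n : ℕ, HasProtocol F n ∧ (n : ℝ) ≤ 492 * g ^ 2 * c * d * (k + Real.logb 2 g +
      Real.logb 2 c + logRank F + 1) * (logRank F + 1) ^ 3 := by
  classical
  set r := (Pool.Agent.H630R2.LR.comm F).rank with hr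
  have hlr : logRank F = Real.logb 2 (r : ℝ) := rfl
  have hl0 := Pool.Agent.H630R2.LR.logb_nonneg r
  have hl := lsum_nonneg k g c r hg hc
  rw [hlr]
  change ∃ n : ℕ, HasProtocol F n ∧ (n : ℝ) ≤ 492 * g ^ 2 * c * d * lsum k g c r *
    (Real.logb 2 (r : ℝ) + 1) ^ 3
  by_cases hr0 : r = 0
  · exact ⟨0, rank_zero F hr0, by rw [Nat.cast_zero]; positivity⟩
  have hr1 : 1 ≤ r := Nat.one_le_iff_ne_zero.mpr hr0
  obtain ⟨m, U, V, hm, hcov, hloc⟩ := h
  refine ⟨_, proto_two F m U V hcov k g c d hg hm ?_ r (r + 1) _ _ _ rfl rfl rfl rfl rfl,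
    bound_two r k g c d _ _ _ (r + 1) hr1 hg hc hd rfl rfl rfl rfl⟩
  intro j hj
  obtain ⟨I, _, π, w, ⟨hw0, hw1, hπ⟩, hD⟩ := hloc j hj
  refine ⟨I, inferInstance, fun v i x y => decide ((π i).run x y = some v),
    fun i => 2 ^ k * w i, fun i => mul_nonneg (by positivity) (hw0 i), ?_,
    fun v i => good_tree d v (π i) (hπ i).2 c (hπ i).1, ?_⟩
  · rw [← mul_sum]
    calc (2 : ℝ) ^ k * ∑ i, w i ≤ 2 ^ k * 1 := mul_le_mul_of_nonneg_left hw1 (by positivity)
      _ = 2 ^ k := mul_one _
  · intro x y hU hV hout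
    obtain ⟨h1, h2⟩ := hD x y ⟨hU, hV, hout⟩
    rw [prob_eq, prob_eq]
    have hk : (0 : ℝ) < 2 ^ k := by positivity
    constructor
    · rw [div_le_iff₀ hk] at h1
      linarith
    · have := mul_le_mul_of_nonneg_left h2 hk.le
      linarith

/-- **Part 2.** -/
theorem part2 {X Y : Type} [Fintype X] [Fintype Y] (F : X → Y → Bool) (v : Bool) (k g c d : ℕ)
    (hg : 1 ≤ g) (hc : 1 ≤ c) (hd : 1 ≤ d) (h : OneSided F v k g c d) :
    ∃ n : ℕ, HasProtocol F n ∧ (n : ℝ) ≤ 1548 * g * c * d * (k + Real.logb 2 g +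
      Real.logb 2 c + logRank F + 1) * (logRank F + 1) ^ 2 := by
  classical
  set r := (Pool.Agent.H630R2.LR.comm F).rank with hr
  have hlr : logRank F = Real.logb 2 (r : ℝ) := rfl
  have hl0 := Pool.Agent.H630R2.LR.logb_nonneg r
  have hl := lsum_nonneg k g c r hg hc
  rw [hlr]
  change ∃ n : ℕ, HasProtocol F n ∧ (n : ℝ) ≤ 1548 * g * c * d * lsum k g c r *
    (Real.logb 2 (r : ℝ) + 1) ^ 2
  by_cases hr0 : r = 0
  · exact ⟨0, rank_zero F hr0, by rw [Nat.cast_zero]; positivity⟩
  have hr1 : 1 ≤ r := Nat.one_le_iff_ne_zero.mpr hr0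
  obtain ⟨I, _, π, w, ⟨hw0, hw1, hπ⟩, h1, h0⟩ := h
  have hk : (0 : ℝ) < 2 ^ k := by positivity
  refine ⟨_, proto_one F v (fun i x y => decide ((π i).run x y = some v))
    (fun i => 2 ^ k * w i) (fun i => mul_nonneg (by positivity) (hw0 i)) k g c d hg ?_
    (fun i => good_tree d v (π i) (hπ i).2 c (hπ i).1) ?_ ?_ r (r + 1) _ _ _ rfl rfl rfl rfl rfl,
    bound_one r k g c d _ _ _ (r + 1) hr1 hg hc hd rfl rfl rfl rfl⟩
  · rw [← mul_sum]
    calc (2 : ℝ) ^ k * ∑ i, w i ≤ 2 ^ k * 1 := mul_le_mul_of_nonneg_left hw1 (by positivity)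
      _ = 2 ^ k := mul_one _
  · intro x y hF
    have := h1 x y hF
    rw [prob_eq]
    rw [div_le_iff₀ hk] at this
    linarith
  · intro x y hF
    have := h0 x y hF
    rw [prob_eq]
    rw [le_div_iff₀ hk] at this
    linarith

/-- **Part 3: duality.** -/
theorem oneSided_of_weak {X Y : Type} [Fintype X] [Fintype Y] (F : X → Y → Bool) (g c d : ℕ)
    (hg : 1 ≤ g) (h : WeaklyPredictable F g c d) : OneSided F true 1 g c d := by
  classical
  by_cases hne : Nonempty (X × Y)
  swap
  · have hno : ∀ x : X, ∀ y : Y, False := fun x y => hne ⟨(x, y)⟩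
    exact ⟨Empty, inferInstance, fun i => i.elim, fun i => i.elim,
      ⟨fun i => i.elim, by simp, fun i => i.elim⟩, fun x y => (hno x y).elim,
      fun x y => (hno x y).elim⟩
  let P : (X → Y → Option Bool) → Prop := fun f =>
    ∃ π : OTree X Y, π.depth ≤ c ∧ π.AllEasy d ∧ π.run = f
  have hJ : Nonempty {f : X → Y → Option Bool // P f} :=
    ⟨⟨_, OTree.answer none, Nat.zero_le _, trivial, rfl⟩⟩
  have hmm := Pool.Agent.Helper711SMP.R2.finite_minimax (α := X × Y)
    (β := {f : X → Y → Option Bool // P f})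
    (fun p f => if f.1 p.1 p.2 = some (F p.1 p.2) then (-1 : ℝ) else 0)
    (-(1 / 2 + 1 / (2 * (g : ℝ)))) (by
      intro ω hω0 hω1
      obtain ⟨π, h1, h2, h3⟩ := h (fun x y => ω (x, y)) (fun x y => hω0 _) (by
        rw [← hω1, Fintype.sum_prod_type])
      refine ⟨⟨π.run, π, h1, h2, rfl⟩, ?_⟩
      rw [Fintype.sum_prod_type]
      have e : ∑ x, ∑ y, ω (x, y) * (if π.run x y = some (F x y) then (-1 : ℝ) else 0) =
          -∑ x, ∑ y, (if π.run x y = some (F x y) then ω (x, y) else 0) := by
        rw [← sum_neg_distrib]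
        refine sum_congr rfl fun x _ => ?_
        rw [← sum_neg_distrib]
        refine sum_congr rfl fun y _ => ?_
        split_ifs <;> ring
      show ∑ x, ∑ y, ω (x, y) * (if π.run x y = some (F x y) then (-1 : ℝ) else 0) ≤ _
      rw [e]
      linarith)
  obtain ⟨p, hp0, hp1, hp⟩ := hmm
  choose tree htree using fun f : {f : X → Y → Option Bool // P f} => f.2
  have hcorrect : ∀ x y, 1 / 2 + 1 / (2 * (g : ℝ)) ≤ prob tree p (F x y) x y := by
    intro x y
    have h1 := hp (x, y)
    have e : prob tree p (F x y) x y =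
        -∑ j, p j * (if j.1 x y = some (F x y) then (-1 : ℝ) else 0) := by
      unfold prob
      rw [← sum_neg_distrib]
      refine sum_congr rfl fun j _ => ?_
      rw [(htree j).2.2]
      split_ifs <;> ring
    rw [e]
    linarith
  have hsum : ∀ x y, prob tree p true x y + prob tree p false x y ≤ 1 := by
    intro x y
    unfold prob
    rw [← sum_add_distrib, ← hp1]
    refine sum_le_sum fun j _ => ?_
    have := hp0 j
    by_cases h1 : (tree j).run x y = some true
    · have h2 : ¬ (tree j).run x y = some false := by rw [h1]; simp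
      rw [if_pos h1, if_neg h2, add_zero]
    · rw [if_neg h1, zero_add]
      split_ifs <;> linarith
  have hg0 : (0 : ℝ) < g := by exact_mod_cast hg
  have e2 : 1 / (2 * (g : ℝ)) = (1 / g) / 2 := by field_simp
  refine ⟨_, inferInstance, tree, p, ⟨hp0, hp1.le, fun i => ⟨(htree i).1, (htree i).2.1⟩⟩,
    fun x y hF => ?_, fun x y hF => ?_⟩
  · have := hcorrect x y
    rw [hF, e2] at this
    rw [pow_one]
    linarith
  · have hF' : F x y = false := by simpa using hF
    have h1 := hcorrect x y
    have h2 := hsum x y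
    rw [hF', e2] at h1
    have h3 : 0 ≤ 1 / (g : ℝ) := by positivity
    rw [pow_one]
    linarith

/-- **Converse.** -/
theorem listProtocol_of_protocol {X Y : Type} (F : X → Y → Bool) (g n : ℕ)
    (h : HasProtocol F n) : ListProtocol F 0 g 1 n := by
  refine ⟨1, fun _ _ => True, fun _ _ => True, by simp, fun x y => ⟨0, Nat.one_pos, trivial,
    trivial⟩, fun j _ => ⟨Unit, inferInstance,
    fun _ => .ask F (.answer (some true)) (.answer (some false)), fun _ => 1,
    ⟨fun _ => zero_le_one, by simp, fun _ => ⟨by simp [OTree.depth], easy_of_protocol F n h,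
      trivial, trivial⟩⟩, fun x y _ => ?_⟩⟩
  have h1 : (OTree.ask F (.answer (some true)) (.answer (some false))).run x y =
      some (F x y) := by
    simp only [OTree.run]
    cases F x y <;> simp
  have h2 : prob (fun _ : Unit => OTree.ask F (.answer (some true)) (.answer (some false)))
      (fun _ => 1) (F x y) x y = 1 := by
    unfold prob
    rw [Fintype.sum_unique, if_pos h1]
  have h3 : prob (fun _ : Unit => OTree.ask F (.answer (some true)) (.answer (some false)))
      (fun _ => 1) (!F x y) x y = 0 := by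
    unfold prob
    rw [Fintype.sum_unique, if_neg]
    rw [h1]
    cases F x y <;> simp
  rw [h2, h3]
  norm_num

theorem weak_of_protocol {X Y : Type} [Fintype X] [Fintype Y] (F : X → Y → Bool) (n : ℕ)
    (h : HasProtocol F n) : WeaklyPredictable F 1 1 n := by
  intro μ _ hμ1
  refine ⟨.ask F (.answer (some true)) (.answer (some false)), by simp [OTree.depth],
    ⟨easy_of_protocol F n h, trivial, trivial⟩, ?_⟩
  have h1 : ∀ x y, (if (OTree.ask F (.answer (some true)) (.answer (some false))).run x y =
      some (F x y) then μ x y else 0) = μ x y := by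
    intro x y
    rw [if_pos]
    simp only [OTree.run]
    cases F x y <;> simp
  simp only [h1]
  rw [hμ1]
  norm_num

theorem exists_retract (X : Type) [Fintype X] [Nonempty X] (n : ℕ) (h : Fintype.card X ≤ 2 ^ n) :
    ∃ (f : (Fin n → ZMod 2) → X) (e : X → (Fin n → ZMod 2)), ∀ x, f (e x) = x := by
  classical
  have hc : Fintype.card X ≤ Fintype.card (Fin n → ZMod 2) := by
    rw [Fintype.card_fun, ZMod.card, Fintype.card_fin]
    exact h
  obtain ⟨e⟩ := Function.Embedding.nonempty_of_card_le hc
  exact ⟨Function.invFun e, e, Function.leftInverse_invFun e.injective⟩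

theorem logb_mono (a b : ℕ) (h : a ≤ b) : Real.logb 2 (a : ℝ) ≤ Real.logb 2 (b : ℝ) := by
  rcases Nat.eq_zero_or_pos a with h0 | h0
  · rw [h0, Nat.cast_zero, Real.logb_zero]
    exact Pool.Agent.H630R2.LR.logb_nonneg b
  · exact Real.logb_le_logb_of_le (by norm_num) (by exact_mod_cast h0) (by exact_mod_cast h)

theorem protocol_of_logRank (h : LogRank) : ∃ C k : ℕ, ∀ (X Y : Type) [Fintype X] [Fintype Y]
    (F : X → Y → Bool), ∃ c : ℕ, 1 ≤ c ∧ HasProtocol F c ∧ (c : ℝ) ≤ C * logRank F ^ k + C := by
  classical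
  obtain ⟨C, k, h⟩ := h
  refine ⟨C + 1, k, ?_⟩
  intro X Y _ _ F
  have hl0 : 0 ≤ logRank F := Pool.Agent.H630R2.LR.logb_nonneg _
  have hmono : ∀ c : ℕ, HasProtocol F c → (c : ℝ) ≤ C * logRank F ^ k + C →
      ∃ c : ℕ, 1 ≤ c ∧ HasProtocol F c ∧ (c : ℝ) ≤ ((C + 1 : ℕ) : ℝ) * logRank F ^ k +
        ((C + 1 : ℕ) : ℝ) := by
    intro c hc hcb
    refine ⟨max c 1, le_max_right _ _, Pool.Agent.H630R2.LR.Proto.mono hc (le_max_left _ _), ?_⟩
    have h1 : ((max c 1 : ℕ) : ℝ) ≤ c + 1 := by
      have : max c 1 ≤ c + 1 := max_le (Nat.le_succ c) (Nat.succ_le_succ (Nat.zero_le c))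
      exact_mod_cast this
    have h2 : 0 ≤ logRank F ^ k := pow_nonneg hl0 k
    have h3 : ((C + 1 : ℕ) : ℝ) = C + 1 := by push_cast; rfl
    rw [h3]
    linarith
  by_cases hX : Nonempty X
  swap
  · refine hmono 0 ⟨fun _ => true, fun _ _ => true, fun _ _ => true, fun _ => true,
      fun x => (hX ⟨x⟩).elim⟩ ?_
    push_cast
    positivity
  by_cases hY : Nonempty Y
  swap
  · refine hmono 0 ⟨fun _ => true, fun _ _ => true, fun _ _ => true, fun _ => true,
      fun _ y => (hY ⟨y⟩).elim⟩ ?_
    push_cast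
    positivity
  obtain ⟨n, hnX, hnY⟩ : ∃ n, Fintype.card X ≤ 2 ^ n ∧ Fintype.card Y ≤ 2 ^ n :=
    ⟨Fintype.card X + Fintype.card Y,
      (Nat.lt_two_pow_self).le.trans (Nat.pow_le_pow_right (by norm_num) (Nat.le_add_right _ _)),
      (Nat.lt_two_pow_self).le.trans (Nat.pow_le_pow_right (by norm_num) (Nat.le_add_left _ _))⟩
  obtain ⟨f, e, hfe⟩ := exists_retract X n hnX
  obtain ⟨g, e', hge⟩ := exists_retract Y n hnY
  obtain ⟨c, owner, a, b, out, hout, hc⟩ := h n (fun u w => F (f u) (g w))
  have hP : HasProtocol F c := by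
    have h1 : Pool.Agent.H630R2.LR.Proto (fun u w => F (f u) (g w)) c := ⟨owner, a, b, out, hout⟩
    have h2 := Pool.Agent.H630R2.LR.Proto.comap h1 e e'
    have h3 : (fun (x : X) (y : Y) => F (f (e x)) (g (e' y))) = F := by
      funext x y
      rw [hfe, hge]
    exact h3 ▸ h2
  refine hmono c hP (hc.trans ?_)
  have hrk' : (Matrix.of (fun u w : Fin n → ZMod 2 =>
      if F (f u) (g w) then (1 : ℝ) else 0)).rank ≤
      (Matrix.of (fun (x : X) (y : Y) => if F x y then (1 : ℝ) else 0)).rank := by
    have : Matrix.of (fun u w : Fin n → ZMod 2 => if F (f u) (g w) then (1 : ℝ) else 0) =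
        (Matrix.of (fun (x : X) (y : Y) => if F x y then (1 : ℝ) else 0)).submatrix f g := rfl
    rw [this]
    exact Matrix.rank_submatrix_le _ _ _
  have h0 := Pool.Agent.H630R2.LR.logb_nonneg (Matrix.of (fun u w : Fin n → ZMod 2 =>
    if F (f u) (g w) then (1 : ℝ) else 0)).rank
  exact add_le_add (mul_le_mul_of_nonneg_left (pow_le_pow_left₀ h0 (logb_mono _ _ hrk') k)
    (Nat.cast_nonneg _)) le_rfl

theorem logb_le_self (n : ℕ) (hn : 1 ≤ n) : Real.logb 2 (n : ℝ) ≤ n := by
  rw [Real.logb_le_iff_le_rpow (by norm_num) (by exact_mod_cast hn), Real.rpow_natCast]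
  exact_mod_cast (Nat.lt_two_pow_self (n := n)).le

/-- polynomial bounds -/
theorem poly_bound (C K : ℕ) : ∃ C' K' : ℕ, ∀ (l : ℝ), 0 ≤ l → ∀ (k g c d : ℕ), 1 ≤ g → 1 ≤ c →
    (k : ℝ) ≤ C * l ^ K + C → (g : ℝ) ≤ C * l ^ K + C → (c : ℝ) ≤ C * l ^ K + C →
    (d : ℝ) ≤ C * l ^ K + C →
    1548 * (g : ℝ) ^ 2 * c * d * (k + Real.logb 2 g + Real.logb 2 c + l + 1) *
      (l + 1) ^ 3 ≤ C' * l ^ K' + C' := by
  refine ⟨(24768 * C ^ 4 * (6 * C + 1)) * 2 ^ (5 * K + 4), 5 * K + 4, ?_⟩
  intro l hl k g c d hg hc hk1 hg1 hc1 hd1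
  set z := l + 1 with hz
  have hz1 : 1 ≤ z := by linarith
  have hz0 : 0 ≤ z := by linarith
  have hC0 : (0 : ℝ) ≤ C := Nat.cast_nonneg C
  have hZ : (C : ℝ) * l ^ K + C ≤ 2 * C * z ^ K := by
    have h1 : l ^ K ≤ z ^ K := pow_le_pow_left₀ hl (by linarith) K
    have h2 : 1 ≤ z ^ K := one_le_pow₀ hz1
    nlinarith
  set Z := 2 * (C : ℝ) * z ^ K with hZd
  have hZ0 : 0 ≤ Z := by positivity
  have hsum : (k : ℝ) + Real.logb 2 g + Real.logb 2 c + l + 1 ≤ (6 * C + 1) * z ^ (K + 1) := by
    have a1 := logb_le_self g hg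
    have a2 := logb_le_self c hc
    have h1 : Z ≤ 2 * C * z ^ (K + 1) :=
      mul_le_mul_of_nonneg_left (pow_le_pow_right₀ hz1 (by omega)) (by positivity)
    have h2 : z ≤ z ^ (K + 1) := by
      calc z = z ^ 1 := (pow_one z).symm
        _ ≤ _ := pow_le_pow_right₀ hz1 (by omega)
    linarith
  have hsum0 : 0 ≤ (k : ℝ) + Real.logb 2 g + Real.logb 2 c + l + 1 := by
    have a1 := logb_nat_nonneg g hg
    have a2 := logb_nat_nonneg c hc
    positivity
  have hg2 : (g : ℝ) ^ 2 ≤ Z ^ 2 := pow_le_pow_left₀ (Nat.cast_nonneg g) (hg1.trans hZ) 2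
  have h1 : 1548 * (g : ℝ) ^ 2 * c * d ≤ 1548 * Z ^ 2 * Z * Z :=
    mul_le_mul (mul_le_mul (mul_le_mul_of_nonneg_left hg2 (by norm_num)) (hc1.trans hZ)
      (Nat.cast_nonneg _) (by positivity)) (hd1.trans hZ) (Nat.cast_nonneg _) (by positivity)
  have h2 : 1548 * (g : ℝ) ^ 2 * c * d * (k + Real.logb 2 g + Real.logb 2 c +
      l + 1) * z ^ 3 ≤ 1548 * Z ^ 2 * Z * Z * ((6 * C + 1) * z ^ (K + 1)) * z ^ 3 :=
    mul_le_mul_of_nonneg_right (mul_le_mul h1 hsum hsum0 (by positivity)) (by positivity)
  have h3 : 1548 * Z ^ 2 * Z * Z * ((6 * C + 1) * z ^ (K + 1)) * z ^ 3 =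
      24768 * (C : ℝ) ^ 4 * (6 * C + 1) * z ^ (5 * K + 4) := by
    rw [hZd]
    ring
  have hpow : z ^ (5 * K + 4) ≤ 2 ^ (5 * K + 4) * (l ^ (5 * K + 4) + 1) := by
    have h4 := add_pow_le hl (zero_le_one) (5 * K + 4)
    rw [one_pow] at h4
    refine h4.trans (mul_le_mul_of_nonneg_right ?_ (by positivity))
    exact pow_le_pow_right₀ (by norm_num) (Nat.sub_le _ _)
  push_cast
  calc _ ≤ _ := h2
    _ = _ := h3
    _ ≤ 24768 * (C : ℝ) ^ 4 * (6 * C + 1) * (2 ^ (5 * K + 4) * (l ^ (5 * K + 4) + 1)) :=
        mul_le_mul_of_nonneg_left hpow (by positivity)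
    _ = _ := by ring

/-- For all finite `X`, `Y` and `F : X × Y → {0,1}` the property `P k g c d` holds for some
parameters bounded by a fixed polynomial of `log₂ rank F`. -/
def Polylog (P : ∀ (X Y : Type) [Fintype X] [Fintype Y], (X → Y → Bool) → ℕ → ℕ → ℕ → ℕ → Prop) :
    Prop :=
  ∃ C K : ℕ, ∀ (X Y : Type) [Fintype X] [Fintype Y] (F : X → Y → Bool), ∃ k g c d : ℕ,
    1 ≤ g ∧ 1 ≤ c ∧ 1 ≤ d ∧ (k : ℝ) ≤ C * logRank F ^ K + C ∧ (g : ℝ) ≤ C * logRank F ^ K + C ∧
    (c : ℝ) ≤ C * logRank F ^ K + C ∧ (d : ℝ) ≤ C * logRank F ^ K + C ∧ P X Y F k g c d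

theorem logRank_of_polylog
    (P : ∀ (X Y : Type) [Fintype X] [Fintype Y], (X → Y → Bool) → ℕ → ℕ → ℕ → ℕ → Prop)
    (hP : ∀ (X Y : Type) [Fintype X] [Fintype Y] (F : X → Y → Bool) (k g c d : ℕ), 1 ≤ g → 1 ≤ c →
      1 ≤ d → P X Y F k g c d → ∃ n : ℕ, HasProtocol F n ∧ (n : ℝ) ≤ 1548 * (g : ℝ) ^ 2 * c * d *
        ((k + 1 : ℕ) + Real.logb 2 g + Real.logb 2 c + logRank F + 1) * (logRank F + 1) ^ 3)
    (h : Polylog P) : LogRank := by
  obtain ⟨C, K, h⟩ := h
  obtain ⟨C', K', hb⟩ := poly_bound (C + 1) K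
  refine ⟨C', K', fun n F => ?_⟩
  obtain ⟨k, g, c, d, hg, hc, hd, h1, h2, h3, h4, hF⟩ := h _ _ F
  obtain ⟨m, ⟨owner, a, b, out, hout⟩, hm⟩ := hP _ _ F k g c d hg hc hd hF
  refine ⟨m, owner, a, b, out, hout, hm.trans ?_⟩
  have hl0 : 0 ≤ logRank F := Pool.Agent.H630R2.LR.logb_nonneg _
  have hp0 : 0 ≤ logRank F ^ K := pow_nonneg hl0 K
  have e : ((C + 1 : ℕ) : ℝ) = C + 1 := by push_cast; rfl
  have e' : ((k + 1 : ℕ) : ℝ) = k + 1 := by push_cast; rfl
  refine hb (logRank F) hl0 (k + 1) g c d hg hc ?_ ?_ ?_ ?_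
  · rw [e, e']; linarith
  · rw [e]; linarith
  · rw [e]; linarith
  · rw [e]; linarith

theorem part3 {X Y : Type} [Fintype X] [Fintype Y] (F : X → Y → Bool) (g c d : ℕ)
    (hg : 1 ≤ g) (hc : 1 ≤ c) (hd : 1 ≤ d) (h : WeaklyPredictable F g c d) :
    ∃ n : ℕ, HasProtocol F n ∧ (n : ℝ) ≤ 1548 * g * c * d * (Real.logb 2 g +
      Real.logb 2 c + logRank F + 2) * (logRank F + 1) ^ 2 := by
  obtain ⟨n, h1, h2⟩ := part2 F true 1 g c d hg hc hd (oneSided_of_weak F g c d hg h)
  refine ⟨n, h1, h2.trans (le_of_eq ?_)⟩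
  push_cast
  ring

theorem one_le_poly (C K : ℕ) (l : ℝ) (hl : 0 ≤ l) :
    (1 : ℝ) ≤ ((C + 1 : ℕ) : ℝ) * l ^ K + ((C + 1 : ℕ) : ℝ) := by
  have hp0 : 0 ≤ l ^ K := pow_nonneg hl K
  have e : ((C + 1 : ℕ) : ℝ) = C + 1 := by push_cast; rfl
  have hC0 : (0 : ℝ) ≤ C := Nat.cast_nonneg C
  rw [e]
  nlinarith

theorem polylog_of_logRank
    (P : ∀ (X Y : Type) [Fintype X] [Fintype Y], (X → Y → Bool) → ℕ → ℕ → ℕ → ℕ → Prop)
    (hP : ∀ (X Y : Type) [Fintype X] [Fintype Y] (F : X → Y → Bool) (n : ℕ), HasProtocol F n →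
      P X Y F 0 1 1 n) (h : LogRank) : Polylog P := by
  obtain ⟨C, K, h⟩ := protocol_of_logRank h
  refine ⟨C + 1, K, fun X Y _ _ F => ?_⟩
  obtain ⟨n, hn1, hn, hnb⟩ := h X Y F
  have hl0 : 0 ≤ logRank F := Pool.Agent.H630R2.LR.logb_nonneg _
  have hp0 : 0 ≤ logRank F ^ K := pow_nonneg hl0 K
  have hone := one_le_poly C K (logRank F) hl0
  refine ⟨0, 1, 1, n, le_rfl, le_rfl, hn1, ?_, ?_, ?_, ?_, hP X Y F n hn⟩
  · rw [Nat.cast_zero]; linarith
  · rw [Nat.cast_one]; exact hone
  · rw [Nat.cast_one]; exact hone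
  · have e : ((C + 1 : ℕ) : ℝ) = C + 1 := by push_cast; rfl
    rw [e]
    nlinarith

/-- `Easy A d`: for the uniform distribution on every rectangle, `A` has a protocol with `d (e + 1)`
bits and error `2 ^ (-e)`, for all `e`. `OTree`: decision trees whose queries are entries of arbitrary
matrices, with the answers `0`, `1` or none. Let `r` be the real rank of `F : X × Y → {0,1}`, `X`, `Y`
finite; `g, c, d ≥ 1`; all trees have at most `c` queries to matrices which are easy with the
parameter `d`.
(1) Suppose that there is a list of at most `2 ^ k` rectangles which cover `X × Y`, and for each of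
them a random tree which is right with probability at least `2 ^ (-k)` and `1 + 1 / g` times more
likely right than wrong, for all inputs in this and in no earlier rectangle. Then `F` has a
deterministic protocol with at most `492 g² c d (k + log₂ g + log₂ c + log₂ r + 1) (log₂ r + 1)³` bits.
(2) The same with `1548 g c d (k + log₂ g + log₂ c + log₂ r + 1) (log₂ r + 1)²` bits if a random tree
answers `v` with probability at least `(1 + 1 / g) 2 ^ (-k)` where `F = v` and at most `2 ^ (-k)`
elsewhere.
(3) The same with `1548 g c d (log₂ g + log₂ c + log₂ r + 2) (log₂ r + 1)²` bits if for every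
distribution of the inputs some tree is right with probability at least `1 / 2 + 1 / (2 g)`.
(4) A matrix whose columns or rows have VC dimension at most `d` is easy with the parameter
`2 d (⌈log₂ d⌉ + 2) + 3`, and functions with a deterministic protocol with `n` bits are easy with the
parameter `n`.
(5) The log-rank conjecture (S15531) holds if and only if the hypothesis of (1), or of (3), holds
for every `F` with some `k, g, c, d` bounded by a fixed polynomial of `log₂ r`. -/
theorem result :
    (∀ (X Y : Type) [Fintype X] [Fintype Y] (F : X → Y → Bool) (k g c d : ℕ),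
      1 ≤ g → 1 ≤ c → 1 ≤ d → ListProtocol F k g c d →
      ∃ n : ℕ, HasProtocol F n ∧ (n : ℝ) ≤ 492 * g ^ 2 * c * d * (k + Real.logb 2 g +
        Real.logb 2 c + logRank F + 1) * (logRank F + 1) ^ 3) ∧
    (∀ (X Y : Type) [Fintype X] [Fintype Y] (F : X → Y → Bool) (v : Bool) (k g c d : ℕ),
      1 ≤ g → 1 ≤ c → 1 ≤ d → OneSided F v k g c d →
      ∃ n : ℕ, HasProtocol F n ∧ (n : ℝ) ≤ 1548 * g * c * d * (k + Real.logb 2 g +
        Real.logb 2 c + logRank F + 1) * (logRank F + 1) ^ 2) ∧
    (∀ (X Y : Type) [Fintype X] [Fintype Y] (F : X → Y → Bool) (g c d : ℕ),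
      1 ≤ g → 1 ≤ c → 1 ≤ d → WeaklyPredictable F g c d →
      ∃ n : ℕ, HasProtocol F n ∧ (n : ℝ) ≤ 1548 * g * c * d * (Real.logb 2 g +
        Real.logb 2 c + logRank F + 2) * (logRank F + 1) ^ 2) ∧
    (∀ (X Y : Type) (A : X → Y → Bool) (d : ℕ), VC A d ∨ VC (fun y x => A x y) d →
      Easy A (2 * d * (Nat.clog 2 d + 2) + 3)) ∧
    (∀ (X Y : Type) (F : X → Y → Bool) (n : ℕ), HasProtocol F n → Easy F n) ∧
    (LogRank ↔ Polylog fun _ _ _ _ F k g c d => ListProtocol F k g c d) ∧
    (LogRank ↔ Polylog fun _ _ _ _ F _ g c d => WeaklyPredictable F g c d) := by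
  refine ⟨fun _ _ _ _ F k g c d hg hc hd h => part1 F k g c d hg hc hd h,
    fun _ _ _ _ F v k g c d hg hc hd h => part2 F v k g c d hg hc hd h,
    fun _ _ _ _ F g c d hg hc hd h => part3 F g c d hg hc hd h,
    fun _ _ A d h => h.elim (easy_of_vc A d) fun h => (easy_of_vc _ d h).swap,
    fun _ _ F n h => easy_of_protocol F n h,
    ⟨polylog_of_logRank _ fun _ _ _ _ F n h => listProtocol_of_protocol F 1 n h, ?_⟩,
    ⟨polylog_of_logRank _ fun _ _ _ _ F n h => weak_of_protocol F n h, ?_⟩⟩
  · refine logRank_of_polylog _ fun X Y _ _ F k g c d hg hc hd h => ?_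
    obtain ⟨n, h1, h2⟩ := part1 F k g c d hg hc hd h
    refine ⟨n, h1, h2.trans ?_⟩
    have hl0 : 0 ≤ logRank F := Pool.Agent.H630R2.LR.logb_nonneg _
    have a1 := logb_nat_nonneg g hg
    have a2 := logb_nat_nonneg c hc
    refine mul_le_mul_of_nonneg_right ?_ (by positivity)
    refine mul_le_mul ?_ ?_ (by positivity) (by positivity)
    · refine mul_le_mul_of_nonneg_right (mul_le_mul_of_nonneg_right
        (mul_le_mul_of_nonneg_right (by norm_num) (by positivity)) (by positivity)) (by positivity)
    · push_cast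
      linarith
  · refine logRank_of_polylog _ fun X Y _ _ F k g c d hg hc hd h => ?_
    obtain ⟨n, h1, h2⟩ := part3 F g c d hg hc hd h
    refine ⟨n, h1, h2.trans ?_⟩
    have hl0 : 0 ≤ logRank F := Pool.Agent.H630R2.LR.logb_nonneg _
    have a1 := logb_nat_nonneg g hg
    have a2 := logb_nat_nonneg c hc
    have hg1 : (1 : ℝ) ≤ g := by exact_mod_cast hg
    have hk0 : (0 : ℝ) ≤ k := Nat.cast_nonneg k
    refine mul_le_mul ?_ ?_ (by positivity) (by positivity)
    · refine mul_le_mul ?_ ?_ (by positivity) (by positivity)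
      · refine mul_le_mul_of_nonneg_right (mul_le_mul_of_nonneg_right ?_ (by positivity))
          (by positivity)
        nlinarith
      · push_cast
        linarith
    · exact pow_le_pow_right₀ (by linarith) (by norm_num)

end Pool.Agent.Results.MP_e5d384_lc.ProductEasyOracles
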