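import Pool.Agent.J4.H83.RoBound

/-!
# The log-rank conjecture for read-once formulas with arbitrary inner functions

`F` is a formula with the gates `¬, ∧, ∨, ⊕` (any number of them, any depth) whose leaves are
two-party functions `f_i(x_i, y_i)` on disjoint inputs; the `f_i` are arbitrary and different, and
one-sided functions `f_i = u(x_i)` and exclusive disjunctions `f_i = u(x_i) + v(y_i)` are allowed.
If all the leaves satisfy the conjecture with the exponent `C`, then so does `F` with the exponent
`max(C, 2)`, with a constant which does not depend on the number of leaves.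

For a gate the logarithms of the ranks are added up to small errors. But these errors are not
affordable since the number of leaves is arbitrary, and for leaves of rank `1` or `2` there is no
gain at all: long chains such as `u_1(x_1) ∧ (v_1(y_1) ∨ (u_2(x_2) ⊕ ...))` occur. The proof: the
measure is the rank of the matrix of the double differences, for which a gate is exactly
multiplicative if one of the two sides is replaced by the rank of its multiplicative form. If this
rank is `1` then the gate is a step of Alice followed by a step of Bob on the other input. A chain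
of such steps has a protocol which sends two indices, where the number of alternations that matter
is at most the sum of the two ranks.
-/

set_option autoImplicit false

namespace Pool.Agent.Results.MP_e5d384_lc.ReadOnceFormulas

/-- `F` has a deterministic two-party protocol with exactly `c` bits. (Protocols exactly as in the
frozen statement S15531: `t` is the transcript so far, `owner t` says who speaks, and the answer is
a function of the transcript.) -/
def HasProtocol {X Y : Type} (F : X → Y → Bool) (c : ℕ) : Prop :=
  ∃ (owner : List Bool → Bool) (a : List Bool → X → Bool)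
      (b : List Bool → Y → Bool) (out : List Bool → Bool),
      ∀ x y, out (Nat.iterate
        (fun t : List Bool => t ++ [if owner t then a t x else b t y]) c []) = F x y

/-- `log₂` of the real rank of the communication matrix of `F` (`0` if the rank is `0`) -/
noncomputable def logRank {X Y : Type} [Fintype X] [Fintype Y] (F : X → Y → Bool) : ℝ :=
  Real.logb 2 ((Matrix.of (fun (x : X) (y : Y) => if F x y then (1 : ℝ) else 0)).rank : ℝ)

/-- The functions given by read-once formulas whose leaves are two-party functions `f` on arbitrary
finite sets which have a protocol with at most `K (log₂ rank f + 1) ^ C` bits. The two inputs of a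
gate depend on disjoint parts of Alice's and of Bob's input. The last rule allows to rename and to
repeat inputs (`s` and `t` are surjective). -/
inductive ReadOnce (K C : ℕ) : (X Y : Type) → [Fintype X] → [Fintype Y] → (X → Y → Bool) → Prop
  | leaf (X Y : Type) [Fintype X] [Fintype Y] (f : X → Y → Bool)
      (h : ∃ c : ℕ, HasProtocol f c ∧ (c : ℝ) ≤ K * (logRank f + 1) ^ C) : ReadOnce K C X Y f
  | not (X Y : Type) [Fintype X] [Fintype Y] (F : X → Y → Bool) (h : ReadOnce K C X Y F) :
      ReadOnce K C X Y (fun x y => !F x y)
  | and (X Y X' Y' : Type) [Fintype X] [Fintype Y] [Fintype X'] [Fintype Y'] (F : X → Y → Bool)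
      (G : X' → Y' → Bool) (hF : ReadOnce K C X Y F) (hG : ReadOnce K C X' Y' G) :
      ReadOnce K C (X × X') (Y × Y') (fun p q => F p.1 q.1 && G p.2 q.2)
  | or (X Y X' Y' : Type) [Fintype X] [Fintype Y] [Fintype X'] [Fintype Y'] (F : X → Y → Bool)
      (G : X' → Y' → Bool) (hF : ReadOnce K C X Y F) (hG : ReadOnce K C X' Y' G) :
      ReadOnce K C (X × X') (Y × Y') (fun p q => F p.1 q.1 || G p.2 q.2)
  | xor (X Y X' Y' : Type) [Fintype X] [Fintype Y] [Fintype X'] [Fintype Y'] (F : X → Y → Bool)
      (G : X' → Y' → Bool) (hF : ReadOnce K C X Y F) (hG : ReadOnce K C X' Y' G) :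
      ReadOnce K C (X × X') (Y × Y') (fun p q => Bool.xor (F p.1 q.1) (G p.2 q.2))
  | rename (X Y X' Y' : Type) [Fintype X] [Fintype Y] [Fintype X'] [Fintype Y'] (F : X → Y → Bool)
      (s : X' → X) (t : Y' → Y) (hs : Function.Surjective s) (ht : Function.Surjective t)
      (hF : ReadOnce K C X Y F) : ReadOnce K C X' Y' (fun x y => F (s x) (t y))

theorem main (K C : ℕ) (X Y : Type) [Fintype X] [Fintype Y] (F : X → Y → Bool)
    (h : ReadOnce K C X Y F) : Nonempty X → Nonempty Y →
    Pool.Agent.J4.H83.PP (Pool.Agent.J4.H83.Tst (K * 3 ^ C + 30) (max C 2 - 2)) F := by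
  have hK : (30 : ℝ) ≤ K * 3 ^ C + 30 := by
    have : (0 : ℝ) ≤ K * 3 ^ C := by positivity
    linarith
  induction h with
  | leaf X Y f h =>
    intro _ _
    obtain ⟨c, hc, hb⟩ := h
    exact Pool.Agent.J4.H83.PP.leaf K C f c hc hb
  | not X Y F _ ih =>
    intro hX hY
    exact (ih hX hY).neg
  | and X Y X' Y' F G _ _ ihF ihG =>
    intro hX hY
    have h1 : Nonempty X := hX.map Prod.fst
    have h2 : Nonempty Y := hY.map Prod.fst
    have h3 : Nonempty X' := hX.map Prod.snd
    have h4 : Nonempty Y' := hY.map Prod.snd
    exact Pool.Agent.J4.H83.PP.gate _ hK _ .conj (ihF h1 h2) (ihG h3 h4)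
  | or X Y X' Y' F G _ _ ihF ihG =>
    intro hX hY
    have h1 : Nonempty X := hX.map Prod.fst
    have h2 : Nonempty Y := hY.map Prod.fst
    have h3 : Nonempty X' := hX.map Prod.snd
    have h4 : Nonempty Y' := hY.map Prod.snd
    exact Pool.Agent.J4.H83.PP.gate _ hK _ .disj (ihF h1 h2) (ihG h3 h4)
  | xor X Y X' Y' F G _ _ ihF ihG =>
    intro hX hY
    have h1 : Nonempty X := hX.map Prod.fst
    have h2 : Nonempty Y := hY.map Prod.fst
    have h3 : Nonempty X' := hX.map Prod.snd
    have h4 : Nonempty Y' := hY.map Prod.snd
    exact Pool.Agent.J4.H83.PP.gate _ hK _ .excl (ihF h1 h2) (ihG h3 h4)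
  | rename X Y X' Y' F s t hs ht _ ih =>
    intro hX hY
    obtain ⟨s', hs'⟩ := hs.hasRightInverse
    obtain ⟨t', ht'⟩ := ht.hasRightInverse
    refine (ih (hX.map s) (hY.map t)).eqv ⟨s', t', fun x y => ?_⟩ ⟨s, t, fun x y => rfl⟩
    show F x y = F (s (s' x)) (t (t' y))
    rw [hs' x, ht' y]

/-- **The log-rank conjecture for read-once formulas with arbitrary inner functions.** Let `F` be
given by a read-once formula with the gates `¬, ∧, ∨, ⊕` whose leaves are arbitrary two-party
functions `f` on disjoint inputs (one-sided functions included) with protocols of at most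
`K (log₂ rank f + 1) ^ C` bits. Then `F` has a protocol with at most
`(K 3 ^ C + 30) (log₂ rank F + 1) ^ max(C, 2)` bits, whatever the number of the leaves is. -/
theorem result (K C : ℕ) (X Y : Type) [Fintype X] [Fintype Y] (F : X → Y → Bool)
    (h : ReadOnce K C X Y F) : ∃ c : ℕ, HasProtocol F c ∧
      (c : ℝ) ≤ (K * 3 ^ C + 30) * (logRank F + 1) ^ (max C 2) := by
  by_cases hX : Nonempty X
  · by_cases hY : Nonempty Y
    · exact Pool.Agent.J4.H83.PP.final K C (main K C X Y F h hX hY)
    · refine ⟨0, ⟨fun _ => true, fun _ _ => true, fun _ _ => true, fun _ => true,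
        fun x y => absurd ⟨y⟩ hY⟩, ?_⟩
      have h1 : 0 ≤ logRank F := Pool.Agent.J4.H83.logb_nn _
      rw [Nat.cast_zero]
      positivity
  · refine ⟨0, ⟨fun _ => true, fun _ _ => true, fun _ _ => true, fun _ => true,
      fun x y => absurd ⟨x⟩ hX⟩, ?_⟩
    have h1 : 0 ≤ logRank F := Pool.Agent.J4.H83.logb_nn _
    rw [Nat.cast_zero]
    positivity

end Pool.Agent.Results.MP_e5d384_lc.ReadOnceFormulas
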