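import Pool.Agent.J4.H83.UnFin

/-!
# The log-rank conjecture for unate block compositions

(1) Let `G : X × Y × {0,1}^Q → {0,1}` be unate in each of the variables of the third argument. If all
the functions `G(., ., z)` have protocols of cost polylogarithmic in their ranks then so does
`F((x, a), (y, b)) = G(x, y, a + b)`.
(2) Let `F(x, y) = g(f_1(x_1, y_1), ..., f_k(x_k, y_k))` where every `f_i` depends on both arguments,
and `g` is unate in the `i`-th coordinate whenever `f_i` has the form `u(x) + v(y)` modulo 2 (and
arbitrary in the other coordinates). If the `f_i` have protocols of cost polylogarithmic in their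
ranks then so does `F`. In particular this holds for all monotone and for all unate `g`.

(Some condition on inner functions which depend on one argument only is needed in (2): for monotone
`g` and inner functions which are single bits of Alice or of Bob the statement is equivalent to the
whole conjecture, as one sees by putting an arbitrary function on the middle slice.)

The proof. The number of the sets `S` of variables for which the Fourier coefficient of some
`G(x, y, .)` does not vanish is at most the rank `r` of `F`. A minimal set `T` of variables with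
`G(x, y, 1_T) = 1` gives an identity submatrix of size `2^|T|`, so all certificates of all the
functions `G(x, y, .)` have size at most `log (r + 1)`; their degrees are at most `log^2 (r + 1)`.
So at most `r log^2 (r + 1)` variables are relevant, the ones of `F` are covered by
`2 ^ polylog r` rectangles, and the theorem of Lovász and Saks applies. (2) follows from (1) and the
starting result XorFreeComposition.
-/

set_option autoImplicit false

namespace Pool.Agent.Results.MP_e5d384_lc.UnateXorCoordinates

/-- `F` has a deterministic two-party protocol with exactly `c` bits. (Protocols exactly as in the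
frozen statement S15531: `t` is the transcript so far, `owner t` says who speaks, and the answer is
a function of the transcript.) -/
def HasProtocol {X Y : Type} (F : X → Y → Bool) (c : ℕ) : Prop :=
  ∃ (owner : List Bool → Bool) (a : List Bool → X → Bool)
      (b : List Bool → Y → Bool) (out : List Bool → Bool),
      ∀ x y, out (Nat.iterate
        (fun t : List Bool => t ++ [if owner t then a t x else b t y]) c []) = F x y

/-- `log₂` of the real rank of the communication matrix of `F` (`0` if the rank is `0`) -/
noncomputable def logRank {X Y : Type} [Fintype X] [Fintype Y] (F : X → Y → Bool) : ℝ :=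
  Real.logb 2 ((Matrix.of (fun (x : X) (y : Y) => if F x y then (1 : ℝ) else 0)).rank : ℝ)

/-- `f(x, y) = u(x) + v(y)` modulo 2 for some one-sided functions `u`, `v` -/
def IsXorType {X Y : Type} (f : X → Y → Bool) : Prop :=
  ∃ (u : X → Bool) (v : Y → Bool), ∀ x y, f x y = xor (u x) (v y)

/-- `f` depends on both arguments -/
def TwoSided {X Y : Type} (f : X → Y → Bool) : Prop :=
  (∃ x x' y, f x y ≠ f x' y) ∧ (∃ x y y', f x y ≠ f x y')

/-- the Boolean function `h` is unate in the variable `j`: it is monotone increasing in this variable,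
or it is monotone decreasing in this variable -/
def UnateIn {Q : Type} [DecidableEq Q] (h : (Q → Bool) → Bool) (j : Q) : Prop :=
  (∀ z, h (Function.update z j false) = true → h (Function.update z j true) = true) ∨
  (∀ z, h (Function.update z j true) = true → h (Function.update z j false) = true)

/-- the family `G(x, y, .)` is unate in the variable `j`, with the same orientation for all `x`, `y` -/
def FamilyUnateIn {X Y Q : Type} [DecidableEq Q] (G : X → Y → (Q → Bool) → Bool) (j : Q) : Prop :=
  (∀ x y z, G x y (Function.update z j false) = true → G x y (Function.update z j true) = true) ∨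
  (∀ x y z, G x y (Function.update z j true) = true → G x y (Function.update z j false) = true)

/-- `F((x, a), (y, b)) = G(x, y, a + b)` -/
def xorLift {X Y Q : Type} (G : X → Y → (Q → Bool) → Bool) :
    (X × (Q → Bool)) → (Y × (Q → Bool)) → Bool :=
  fun p q => G p.1 q.1 (fun j => xor (p.2 j) (q.2 j))

/-- the block composition `F(x, y) = g(f_1(x_1, y_1), ..., f_k(x_k, y_k))` -/
def compose {k : ℕ} {X Y : Fin k → Type} (g : (Fin k → Bool) → Bool)
    (f : ∀ i, X i → Y i → Bool) : (∀ i, X i) → (∀ i, Y i) → Bool :=
  fun x y => g (fun i => f i (x i) (y i))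

theorem part1 (K C : ℕ) (X Y Q : Type) [Fintype X] [Fintype Y] [Fintype Q] [DecidableEq Q]
    (G : X → Y → (Q → Bool) → Bool) (hG : ∀ j, FamilyUnateIn G j)
    (hK : ∀ z, ∃ c : ℕ, HasProtocol (fun x y => G x y z) c ∧
      (c : ℝ) ≤ K * (logRank (fun x y => G x y z) + 1) ^ C) :
    ∃ c : ℕ, HasProtocol (xorLift G) c ∧
      (c : ℝ) ≤ 30 * (K + 8) * (logRank (xorLift G) + 1) ^ (max C 2 + 2) :=
  Pool.Agent.J4.H83.unate_proto G hG K (Nat.cast_nonneg K) C hK

theorem part2 (K C k : ℕ) (X Y : Fin k → Type) [∀ i, Fintype (X i)] [∀ i, Fintype (Y i)]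
    (f : ∀ i, X i → Y i → Bool) (g : (Fin k → Bool) → Bool) (hf : ∀ i, TwoSided (f i))
    (hg : ∀ i, IsXorType (f i) → UnateIn g i)
    (hK : ∀ i, ∃ c : ℕ, HasProtocol (f i) c ∧ (c : ℝ) ≤ K * (logRank (f i) + 1) ^ C) :
    ∃ c : ℕ, HasProtocol (compose g f) c ∧ (c : ℝ) ≤
      30 * (288 * (18 + K * 3 ^ C) + 8) * (logRank (compose g f) + 1) ^ (max C 4 + 9) := by
  classical
  let G : (∀ i : {i // ¬ IsXorType (f i)}, X i) → (∀ i : {i // ¬ IsXorType (f i)}, Y i) →
      ({i // IsXorType (f i)} → Bool) → Bool := fun x y z =>
    g (fun i => if h : IsXorType (f i) then z ⟨i, h⟩ else f i (x ⟨i, h⟩) (y ⟨i, h⟩))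
  have hupd : ∀ x y z (j : {i // IsXorType (f i)}) (s : Bool), G x y (Function.update z j s) =
      g (Function.update (fun i => if h : IsXorType (f i) then z ⟨i, h⟩
        else f i (x ⟨i, h⟩) (y ⟨i, h⟩)) j.1 s) := by
    intro x y z j s
    show g _ = g _
    congr 1
    funext i
    by_cases hij : i = j.1
    · subst hij
      simp [j.2]
    · rw [Function.update_of_ne hij]
      by_cases h : IsXorType (f i)
      · simp only [h, dite_true]
        rw [Function.update_of_ne]
        intro h'
        exact hij (congrArg Subtype.val h')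
      · simp only [h, dite_false]
  have hG : ∀ j, FamilyUnateIn G j := by
    intro j
    rcases hg j.1 j.2 with h | h
    · left
      intro x y z
      rw [hupd, hupd]
      exact h _
    · right
      intro x y z
      rw [hupd, hupd]
      exact h _
  have hc : ∀ z, ∃ c : ℕ, HasProtocol (fun x y => G x y z) c ∧ (c : ℝ) ≤
      (288 * (18 + K * 3 ^ C) : ℕ) * (logRank (fun x y => G x y z) + 1) ^ (max C 4 + 7) := by
    intro z
    have h := Pool.Agent.N609.AndRank.final (ι := {i // ¬ IsXorType (f i)}) (fun i => f i.1)
      (fun i => i.2) (fun U : Finset {i // ¬ IsXorType (f i)} =>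
        g (fun i => if h : IsXorType (f i) then z ⟨i, h⟩ else decide (⟨i, h⟩ ∈ U))) K C
      (fun i => hK i.1)
    have hcomp : Pool.Agent.TH744.LR.comp (fun U : Finset {i // ¬ IsXorType (f i)} =>
        g (fun i => if h : IsXorType (f i) then z ⟨i, h⟩ else decide (⟨i, h⟩ ∈ U)))
        (Pool.Agent.TH744.LR.inner (fun i : {i // ¬ IsXorType (f i)} => f i.1)) =
        fun x y => G x y z := by
      funext x y
      simp only [Pool.Agent.TH744.LR.comp, G]
      congr 1
      funext i
      by_cases h : IsXorType (f i)
      · simp only [h, dite_true]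
      · simp only [h, dite_false]
        rw [Bool.eq_iff_iff, decide_eq_true_iff, Finset.mem_filter]
        simp [Pool.Agent.TH744.LR.inner]
    rw [hcomp] at h
    obtain ⟨c, h1, h2⟩ := h
    refine ⟨c, h1, h2.trans (le_of_eq ?_)⟩
    push_cast
    rfl
  obtain ⟨c, h1, h2⟩ := part1 (288 * (18 + K * 3 ^ C)) (max C 4 + 7) _ _ _ G hG hc
  -- the bits of Alice and of Bob
  have huv : ∀ j : {i // IsXorType (f i)}, ∃ (u : X j.1 → Bool) (v : Y j.1 → Bool)
      (p : Bool → X j.1) (q : Bool → Y j.1), (∀ x y, f j.1 x y = xor (u x) (v y)) ∧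
      (∀ b, u (p b) = b) ∧ (∀ b, v (q b) = b) := by
    intro j
    obtain ⟨u, v, huv⟩ := j.2
    obtain ⟨⟨x, x', y, hx⟩, ⟨x₀, y₀, y', hy⟩⟩ := hf j.1
    have hu : ∀ b, ∃ x, u x = b := by
      intro b
      rw [huv, huv] at hx
      by_cases h : u x = b
      · exact ⟨x, h⟩
      · refine ⟨x', ?_⟩
        revert hx h
        cases u x <;> cases u x' <;> cases v y <;> cases b <;> simp
    have hv : ∀ b, ∃ y, v y = b := by
      intro b
      rw [huv, huv] at hy
      by_cases h : v y₀ = b
      · exact ⟨y₀, h⟩
      · refine ⟨y', ?_⟩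
        revert hy h
        cases v y₀ <;> cases v y' <;> cases u x₀ <;> cases b <;> simp
    choose p hp using hu
    choose q hq using hv
    exact ⟨u, v, p, q, huv, hp, hq⟩
  choose u v p q huv hp hq using huv
  refine ⟨c, ?_, h2.trans ?_⟩
  · have h3 := Pool.Agent.H630R2.LR.Proto.comap h1
      (fun x : (∀ i, X i) => ((fun i : {i // ¬ IsXorType (f i)} => x i.1),
        (fun j : {i // IsXorType (f i)} => u j (x j.1))))
      (fun y : (∀ i, Y i) => ((fun i : {i // ¬ IsXorType (f i)} => y i.1),
        (fun j : {i // IsXorType (f i)} => v j (y j.1))))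
    have e : (fun (x : (∀ i, X i)) (y : (∀ i, Y i)) =>
        xorLift G ((fun i : {i // ¬ IsXorType (f i)} => x i.1),
        (fun j : {i // IsXorType (f i)} => u j (x j.1)))
        ((fun i : {i // ¬ IsXorType (f i)} => y i.1),
        (fun j : {i // IsXorType (f i)} => v j (y j.1)))) = compose g f := by
      funext x y
      show g _ = g _
      congr 1
      funext i
      by_cases h : IsXorType (f i)
      · simp only [h, dite_true]
        exact (huv ⟨i, h⟩ (x i) (y i)).symm
      · simp only [h, dite_false]
    rw [e] at h3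
    exact h3
  · have hrank : (Pool.Agent.H630R2.LR.comm (xorLift G)).rank ≤
        (Pool.Agent.H630R2.LR.comm (compose g f)).rank := by
      have e : Pool.Agent.H630R2.LR.comm (xorLift G) =
          (Pool.Agent.H630R2.LR.comm (compose g f)).submatrix
          (fun r => fun i => if h : IsXorType (f i) then p ⟨i, h⟩ (r.2 ⟨i, h⟩) else r.1 ⟨i, h⟩)
          (fun r => fun i => if h : IsXorType (f i) then q ⟨i, h⟩ (r.2 ⟨i, h⟩)
            else r.1 ⟨i, h⟩) := by
        ext r r'
        rw [Matrix.submatrix_apply]
        have e2 : xorLift G r r' = compose g f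
            (fun i => if h : IsXorType (f i) then p ⟨i, h⟩ (r.2 ⟨i, h⟩) else r.1 ⟨i, h⟩)
            (fun i => if h : IsXorType (f i) then q ⟨i, h⟩ (r'.2 ⟨i, h⟩) else r'.1 ⟨i, h⟩) := by
          show g _ = g _
          congr 1
          funext i
          by_cases h : IsXorType (f i)
          · simp only [h, dite_true]
            have := huv ⟨i, h⟩ (p ⟨i, h⟩ (r.2 ⟨i, h⟩)) (q ⟨i, h⟩ (r'.2 ⟨i, h⟩))
            rw [hp, hq] at this
            exact this.symm
          · simp only [h, dite_false]
        show (if xorLift G r r' then (1 : ℝ) else 0) = _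
        rw [e2]
        rfl
      rw [e]
      exact Matrix.rank_submatrix_le _ _ _
    have h3 : logRank (xorLift G) ≤ logRank (compose g f) :=
      Pool.Agent.J4.H83.log_le_of_rank_le hrank
    have h0 : 0 ≤ logRank (xorLift G) := Pool.Agent.J4.H83.logb_nn _
    have e : max (max C 4 + 7) 2 + 2 = max C 4 + 9 := by omega
    rw [e]
    push_cast
    refine mul_le_mul_of_nonneg_left (pow_le_pow_left₀ (by linarith) (by linarith) _) ?_
    positivity

/-- **The log-rank conjecture for unate block compositions.**
(1) Let `G(x, y, z)` be a Boolean function, `z ∈ {0,1}^Q`, unate in each variable of `z`. If every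
slice `G(., ., z)` has a protocol with at most `K (log₂ rank + 1)^C` bits, then so has
`F((x, a), (y, b)) = G(x, y, a + b)` with `30 (K + 8) (log₂ rank F + 1)^(max(C,2)+2)` bits.
(2) Let `F = g(f_1, ..., f_k)` be a block composition where each inner function depends on both
arguments, and `g` is unate in those coordinates where the inner function is of the form
`u(x) + v(y)`. If every inner function has a protocol with at most `K (log₂ rank f_i + 1)^C` bits,
then `F` has one with at most
`30 (288 (18 + K 3^C) + 8) (log₂ rank F + 1)^(max(C,4)+9)` bits. -/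
theorem result (K C : ℕ) :
    (∀ (X Y Q : Type) [Fintype X] [Fintype Y] [Fintype Q] [DecidableEq Q]
      (G : X → Y → (Q → Bool) → Bool), (∀ j, FamilyUnateIn G j) →
      (∀ z, ∃ c : ℕ, HasProtocol (fun x y => G x y z) c ∧
        (c : ℝ) ≤ K * (logRank (fun x y => G x y z) + 1) ^ C) →
      ∃ c : ℕ, HasProtocol (xorLift G) c ∧
        (c : ℝ) ≤ 30 * (K + 8) * (logRank (xorLift G) + 1) ^ (max C 2 + 2)) ∧
    (∀ (k : ℕ) (X Y : Fin k → Type) [∀ i, Fintype (X i)] [∀ i, Fintype (Y i)]
      (f : ∀ i, X i → Y i → Bool) (g : (Fin k → Bool) → Bool), (∀ i, TwoSided (f i)) →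
      (∀ i, IsXorType (f i) → UnateIn g i) →
      (∀ i, ∃ c : ℕ, HasProtocol (f i) c ∧ (c : ℝ) ≤ K * (logRank (f i) + 1) ^ C) →
      ∃ c : ℕ, HasProtocol (compose g f) c ∧ (c : ℝ) ≤
        30 * (288 * (18 + K * 3 ^ C) + 8) * (logRank (compose g f) + 1) ^ (max C 4 + 9)) :=
  ⟨fun X Y Q _ _ _ _ G hG hK => part1 K C X Y Q G hG hK,
    fun k X Y _ _ f g hf hg hK => part2 K C k X Y f g hf hg hK⟩

end Pool.Agent.Results.MP_e5d384_lc.UnateXorCoordinates
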